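import Pool.Agent.P.MP_9167e9_an.StG

/-! NUM: numerical consequences of admissibility. -/

noncomputable section
open scoped Classical

namespace Pool.Agent.P.MP_9167e9_an

namespace Num

variable {P : Prm}

theorem le_pw (b n : ℕ) (hb : 2 ≤ b) : n ≤ b ^ n :=
  (Nat.lt_pow_self (by omega)).le

theorem lin_le (R : ℕ) (hR : 3 ≤ R) : 2 * R + 1 ≤ 2 ^ R := by
  induction R, hR using Nat.le_induction with
  | base => norm_num
  | succ n hn ih => rw [pow_succ]; omega

theorem R_le_g (c : Cell P) (h : c.OK) : c.R ≤ c.g := by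
  have h1 := h.R_big
  have : c.R ≤ c.R ^ 15 := Nat.le_self_pow (by norm_num) _
  unfold Cell.g
  omega

theorem g4_le (hj : 1000 ≤ P.j) (c : Cell P) (h : c.OK) : c.g ^ 4 ≤ Fintype.card c.V := by
  rw [h.card, mul_comm 4, pow_mul]
  exact Nat.pow_le_pow_left (le_pw _ _ (by omega)) 4

theorem V_gP (hj : 1000 ≤ P.j) (c : Cell P) : Fintype.card c.V ≤ c.gP := by
  unfold Cell.gP
  rw [Nat.le_div_iff_mul_le (by norm_num)]
  exact Nat.mul_le_mul_left _ (by omega)

theorem g_le_g4 (c : Cell P) (h : c.OK) : c.g ≤ c.g ^ 4 := by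
  have h1 := h.R_big
  have h2 := R_le_g c h
  calc c.g = c.g ^ 1 := (pow_one _).symm
    _ ≤ c.g ^ 4 := Nat.pow_le_pow_right (by omega) (by norm_num)

theorem θc_V (hj : 1000 ≤ P.j) (c : Cell P) (h : c.OK) : c.R * c.θc ≤ Fintype.card c.V := by
  have hR := h.R_big
  have hS := h.S_le
  have hb : 2 ≤ 2 * P.j := by omega
  have hL : c.R ≤ c.L := by
    have : c.R ≤ c.R ^ 15 := Nat.le_self_pow (by norm_num) _
    unfold Cell.L
    omega
  have h1 : c.R ≤ (2 * P.j) ^ c.L :=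
    (le_pw _ _ hb).trans (Nat.pow_le_pow_right (by omega) hL)
  have h2 : (2 * P.j + 1) ^ (11 * c.L) ≤ (2 * P.j) ^ (22 * c.L) := by
    have : 2 * P.j + 1 ≤ (2 * P.j) ^ 2 := by nlinarith
    calc (2 * P.j + 1) ^ (11 * c.L) ≤ ((2 * P.j) ^ 2) ^ (11 * c.L) := Nat.pow_le_pow_left this _
      _ = (2 * P.j) ^ (22 * c.L) := by rw [← pow_mul]; congr 1; ring
  have h3 : (2 * Fintype.card P.S + 1) ^ (c.R2 + 1) ≤ (2 * P.j) ^ (2 * c.L) := by
    have e1 : 2 * Fintype.card P.S + 1 ≤ (2 * P.j) ^ c.R :=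
      (by omega : 2 * Fintype.card P.S + 1 ≤ 2 * c.R + 1).trans
        ((lin_le _ (by omega)).trans (Nat.pow_le_pow_left hb _))
    have e2 : c.R * (c.R2 + 1) ≤ 2 * c.L := by
      have : c.R * (c.R2 + 1) = c.L + c.R := by unfold Cell.R2 Cell.L; ring
      omega
    calc (2 * Fintype.card P.S + 1) ^ (c.R2 + 1) ≤ ((2 * P.j) ^ c.R) ^ (c.R2 + 1) :=
          Nat.pow_le_pow_left e1 _
      _ = (2 * P.j) ^ (c.R * (c.R2 + 1)) := by rw [← pow_mul]
      _ ≤ _ := Nat.pow_le_pow_right (by omega) e2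
  have h4 : c.L + (22 * c.L + 2 * c.L) ≤ 4 * c.g := by unfold Cell.g Cell.L; omega
  rw [h.card]
  calc c.R * c.θc ≤ (2 * P.j) ^ c.L * ((2 * P.j) ^ (22 * c.L) * (2 * P.j) ^ (2 * c.L)) :=
        Nat.mul_le_mul h1 (Nat.mul_le_mul h2 h3)
    _ = (2 * P.j) ^ (c.L + (22 * c.L + 2 * c.L)) := by rw [pow_add, pow_add]
    _ ≤ _ := Nat.pow_le_pow_right (by omega) h4

theorem V_sz (c : Cell P) : 2 * Fintype.card c.V ≤ c.sz :=
  Nat.le_mul_of_pos_right _ (by positivity)

theorem one (hj : 1000 ≤ P.j) (c : Cell P) (h : c.OK) : NumOut c where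
  δ0_le := Nat.log_le_self _ _
  δ0_pow := Nat.pow_log_le_self _ (by have := h.R_big; omega)
  θc_pos := Nat.one_le_iff_ne_zero.2 (by unfold Cell.θc; positivity)
  θc_V := θc_V hj c h
  θc_gP := (Nat.mul_le_mul_right _ h.R_big).trans ((θc_V hj c h).trans (V_gP hj c))
  gP_big := (g4_le hj c h).trans (V_gP hj c)
  g_sz := by
    have := (g_le_g4 c h).trans (g4_le hj c h)
    have := V_sz c
    omega
  V_sz := V_sz c

end Num

theorem pNum : StNum := by
  intro P F hF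
  have hj := hF.j_big
  refine ⟨fun c hc => Num.one hj c (hF.ok c hc), fun c hc e he hlt => ?_,
    fun c hc e he hle => ?_, fun n => ?_⟩
  · exact Nat.le_log_of_pow_le (by omega) (hF.gap e he c hc hlt)
  · refine le_trans (Nat.pow_le_pow_left ?_ 4) (Num.one hj e (hF.ok e he)).gP_big
    exact Nat.mul_le_mul_left _ (Nat.pow_le_pow_left hle _)
  · refine ⟨2 * (2 * P.j) ^ (4 * n) * (2 * Fintype.card P.S + 1) ^ (n ^ 14 + 1), fun e he h => ?_⟩
    have ok := hF.ok e he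
    have hg : e.g ≤ n := by
      rcases h with h | h
      · exact h
      · exact (Num.g_le_g4 e ok).trans ((Num.one hj e ok).gP_big.trans h)
    have hR : e.R ≤ n := (Num.R_le_g e ok).trans hg
    unfold Cell.sz Cell.R2
    rw [ok.card]
    refine Nat.mul_le_mul (Nat.mul_le_mul_left _ (Nat.pow_le_pow_right (by omega) (by omega)))
      (Nat.pow_le_pow_right (by omega) ?_)
    exact Nat.succ_le_succ (Nat.pow_le_pow_left hR _)

end Pool.Agent.P.MP_9167e9_an
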